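import Mathlib

set_option autoImplicit false

namespace Pool.Agent.H.MP_958dc4_gt

open Cardinal hiding univ
open Set Topology

def al : ℕ → Type
  | 0 => ℕ
  | n + 1 => Set (al n)

noncomputable def ka (n : ℕ) : Cardinal.{0} := #(al n)

lemma ka_lt (n : ℕ) : ka n < ka (n + 1) := by
  show #(al n) < #(Set (al n))
  rw [Cardinal.mk_set]; exact Cardinal.cantor _

lemma ka_mono : StrictMono ka := strictMono_nat_of_lt_succ ka_lt

lemma ka_inf (n : ℕ) : ℵ₀ ≤ ka n := by
  have : ka 0 = ℵ₀ := Cardinal.mk_nat
  rw [← this]; exact ka_mono.monotone (Nat.zero_le n)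

def XX (n : ℕ) : Type := Set (al n)

lemma mk_XX (n : ℕ) : #(XX n) = ka (n + 1) := rfl

lemma small_union {α : Type} {n : ℕ} {s t : Set α} (hs : #s ≤ ka n) (ht : #t ≤ ka n) :
    #(s ∪ t : Set α) ≤ ka n :=
  (mk_union_le s t).trans (Cardinal.add_le_of_le (ka_inf n) hs ht)

lemma small_iUnion {α ι : Type} {n : ℕ} {s : ι → Set α} (hι : #ι ≤ ka n) (hs : ∀ i, #(s i) ≤ ka n) :
    #(⋃ i, s i : Set α) ≤ ka n := by
  refine (mk_iUnion_le s).trans ?_
  calc #ι * ⨆ i, #(s i) ≤ ka n * ka n := mul_le_mul' hι (ciSup_le' hs)
    _ = ka n := Cardinal.mul_eq_self (ka_inf n)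

lemma small_ne_univ {n : ℕ} {s : Set (XX n)} (hs : #s ≤ ka n) : ∃ x, x ∉ s := by
  by_contra h
  push Not at h
  have : s = univ := eq_univ_of_forall h
  rw [this, mk_univ, mk_XX] at hs
  exact absurd (ka_lt n) (not_lt.2 hs)

instance topX (n : ℕ) : TopologicalSpace (XX n) :=
  TopologicalSpace.ofClosed {s | s = univ ∨ #s ≤ ka n} (Or.inr (by simp))
    (by
      intro A hA
      by_cases h : ∀ s ∈ A, s = univ
      · left; exact sInter_eq_univ.2 h
      · push Not at h
        obtain ⟨s, hs, hne⟩ := h
        right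
        exact (mk_le_mk_of_subset (sInter_subset_of_mem hs)).trans ((hA hs).resolve_left hne))
    (by
      rintro A (rfl | hA) B hB
      · left; simp
      · rcases hB with rfl | hB
        · left; simp
        · right; exact small_union hA hB)

lemma closedX {n : ℕ} (s : Set (XX n)) : IsClosed s ↔ s = univ ∨ #s ≤ ka n := by
  rw [← isOpen_compl_iff]
  show (sᶜ)ᶜ ∈ {s : Set (XX n) | s = univ ∨ #s ≤ ka n} ↔ _
  rw [compl_compl]; rfl

instance (n : ℕ) : T1Space (XX n) :=
  ⟨fun x => (closedX _).2 (Or.inr (by simpa using one_le_aleph0.trans (ka_inf n)))⟩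

instance (n : ℕ) : Nonempty (XX n) := ⟨(∅ : Set (al n))⟩

instance (n : ℕ) : IrreducibleSpace (XX n) where
  isPreirreducible_univ := by
    rw [isPreirreducible_iff_isClosed_union_isClosed]
    intro s t hs ht h
    rcases (closedX s).1 hs with rfl | hs
    · left; rfl
    rcases (closedX t).1 ht with rfl | ht
    · right; rfl
    obtain ⟨x, hx⟩ := small_ne_univ (small_union hs ht)
    exact absurd (h (mem_univ x)) hx
  toNonempty := inferInstance

def RR (n : ℕ) : Type := Option (XX n)

def inf (n : ℕ) : RR n := none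
def eta (n : ℕ) (x : XX n) : RR n := some x

lemma eta_inj (n : ℕ) : Function.Injective (eta n) := Option.some_injective _
lemma eta_ne (n : ℕ) (x : XX n) : eta n x ≠ inf n := Option.some_ne_none x
lemma RR_cases {n : ℕ} (y : RR n) : y = inf n ∨ ∃ x, y = eta n x := by
  cases y with
  | none => left; rfl
  | some x => right; exact ⟨x, rfl⟩

instance topR (n : ℕ) : TopologicalSpace (RR n) :=
  TopologicalSpace.ofClosed {s | s = univ ∨ (inf n ∉ s ∧ #s ≤ ka n)} (Or.inr (by simp))
    (by
      intro A hA
      by_cases h : ∀ s ∈ A, s = univ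
      · left; exact sInter_eq_univ.2 h
      · push Not at h
        obtain ⟨s, hs, hne⟩ := h
        right
        have := (hA hs).resolve_left hne
        exact ⟨fun hi => this.1 (hi s hs),
          (mk_le_mk_of_subset (sInter_subset_of_mem hs)).trans this.2⟩)
    (by
      rintro A (rfl | hA) B hB
      · left; simp
      · rcases hB with rfl | hB
        · left; simp
        · right; exact ⟨fun h => h.elim hA.1 hB.1, small_union hA.2 hB.2⟩)

lemma closedR {n : ℕ} (s : Set (RR n)) : IsClosed s ↔ s = univ ∨ (inf n ∉ s ∧ #s ≤ ka n) := by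
  rw [← isOpen_compl_iff]
  show (sᶜ)ᶜ ∈ {s : Set (RR n) | s = univ ∨ (inf n ∉ s ∧ #s ≤ ka n)} ↔ _
  rw [compl_compl]; rfl

lemma closed_eta {n : ℕ} (x : XX n) : IsClosed ({eta n x} : Set (RR n)) :=
  (closedR _).2 (Or.inr ⟨fun h => eta_ne n x h.symm,
    by simpa using one_le_aleph0.trans (ka_inf n)⟩)

lemma closure_inf (n : ℕ) : closure ({inf n} : Set (RR n)) = univ := by
  rcases (closedR _).1 (isClosed_closure (s := ({inf n} : Set (RR n)))) with h | h
  · exact h
  · exact absurd (subset_closure (mem_singleton _)) h.1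

lemma eta_cont (n : ℕ) : Continuous (eta n) := by
  rw [continuous_iff_isClosed]
  intro s hs
  rcases (closedR s).1 hs with rfl | ⟨-, h⟩
  · simp
  · exact (closedX _).2 (Or.inr ((mk_preimage_of_injective _ _ (eta_inj n)).trans h))

lemma eta_dense (n : ℕ) : closure (range (eta n)) = univ := by
  rcases (closedR _).1 (isClosed_closure (s := range (eta n))) with h | h
  · exact h
  · have h1 := (mk_le_mk_of_subset subset_closure).trans h.2
    rw [mk_range_eq _ (eta_inj n), mk_XX] at h1
    exact absurd (ka_lt n) (not_lt.2 h1)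

instance (n : ℕ) : T0Space (RR n) := by
  refine ⟨fun x y h => ?_⟩
  rw [inseparable_iff_closure_eq] at h
  rcases RR_cases x with rfl | ⟨x, rfl⟩
  · rcases RR_cases y with rfl | ⟨y, rfl⟩
    · rfl
    · rw [(closed_eta y).closure_eq] at h
      have : inf n ∈ ({eta n y} : Set (RR n)) := h ▸ subset_closure (mem_singleton _)
      exact this
  · rw [(closed_eta x).closure_eq] at h
    have : y ∈ ({eta n x} : Set (RR n)) := h ▸ subset_closure (mem_singleton _)
    exact this.symm

def KK (Y : Type) [TopologicalSpace Y] : Prop :=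
  T0Space Y ∧ ∀ (m : ℕ) (c : XX m → Y), Continuous c → ∃ y, closure (range c) = closure {y}

lemma preimage_small {m n : ℕ} {c : XX m → RR n} (hc : Continuous c)
    (hd : closure (range c) = univ) {s : Set (RR n)} (hs : inf n ∉ s) (hs' : #s ≤ ka n) :
    #(c ⁻¹' s) ≤ ka m := by
  have hcl : IsClosed s := (closedR s).2 (Or.inr ⟨hs, hs'⟩)
  rcases (closedX _).1 (hcl.preimage hc) with h | h
  · exfalso
    have : closure (range c) ⊆ s := closure_minimal (range_subset_iff.2 fun x => by
      have : x ∈ c ⁻¹' s := h ▸ mem_univ x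
      exact this) hcl
    rw [hd] at this
    exact hs (this (mem_univ _))
  · exact h

lemma gen_R {m n : ℕ} {c : XX m → RR n} (hc : Continuous c) :
    closure (range c) = univ ∨ ∃ x, closure (range c) = {eta n x} := by
  by_cases hd : closure (range c) = univ
  · exact Or.inl hd
  right
  have h1 := ((closedR _).1 (isClosed_closure (s := range c))).resolve_left hd
  obtain ⟨a⟩ : Nonempty (XX m) := inferInstance
  have hirr : IsPreirreducible (range c) := by
    rw [← image_univ]
    exact (PreirreducibleSpace.isPreirreducible_univ).image c hc.continuousOn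
  rcases RR_cases (c a) with h | ⟨x, hx⟩
  · exact absurd (subset_closure (show inf n ∈ range c from ⟨a, h⟩)) h1.1
  refine ⟨x, ?_⟩
  have h2 : IsClosed (range c \ {eta n x}) := (closedR _).2 (Or.inr
    ⟨fun h => h1.1 (subset_closure h.1),
      (mk_le_mk_of_subset (sdiff_subset.trans subset_closure)).trans h1.2⟩)
  have h3 := isPreirreducible_iff_isClosed_union_isClosed.1 hirr _ _ (closed_eta x) h2
    (fun y hy => by by_cases h : y = eta n x <;> simp [h, hy])
  rcases h3 with h3 | h3
  · have : range c = {eta n x} := subset_antisymm h3 (singleton_subset_iff.2 ⟨a, hx⟩)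
    rw [this, (closed_eta x).closure_eq]
  · exact absurd (mem_singleton _) (h3 ⟨a, hx⟩).2

lemma gen_R' {m n : ℕ} {c : XX m → RR n} (hc : Continuous c) :
    ∃ y, closure (range c) = closure {y} := by
  rcases gen_R hc with h | ⟨x, h⟩
  · exact ⟨inf n, by rw [h, closure_inf]⟩
  · exact ⟨eta n x, by rw [h, (closed_eta x).closure_eq]⟩

lemma KK_R (n : ℕ) : KK (RR n) := ⟨inferInstance, fun _ _ hc => gen_R' hc⟩

lemma tail_inf {m n : ℕ} (hmn : m ≠ n) {c : XX m → RR n} (hc : Continuous c)
    (hd : closure (range c) = univ) : #({a | c a ≠ inf n} : Set (XX m)) ≤ ka m := by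
  rcases lt_or_gt_of_ne hmn with h | h
  · have : {a | c a ≠ inf n} = c ⁻¹' (range c \ {inf n}) := by ext a; simp
    rw [this]
    refine preimage_small hc hd (by simp) ?_
    refine (mk_le_mk_of_subset sdiff_subset).trans (mk_range_le.trans ?_)
    rw [mk_XX]; exact ka_mono.monotone h
  · have : {a | c a ≠ inf n} = ⋃ x : XX n, c ⁻¹' {eta n x} := by
      ext a
      simp only [mem_iUnion, mem_preimage, mem_singleton_iff]
      constructor
      · intro ha; exact (RR_cases (c a)).resolve_left ha
      · rintro ⟨x, hx⟩; show c a ≠ inf n; rw [hx]; exact eta_ne n x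
    rw [this]
    refine small_iUnion (by rw [mk_XX]; exact ka_mono.monotone h) fun x => ?_
    exact preimage_small hc hd (fun h => eta_ne n x h.symm)
      (by simpa using one_le_aleph0.trans (ka_inf n))

def YY : Type := {y : ∀ n, RR n // {n | y n = inf n}.Finite}

instance : TopologicalSpace YY := instTopologicalSpaceSubtype

lemma KK_Y : KK YY := by
  refine ⟨Subtype.t0Space, fun m c hc => ?_⟩
  have hcn : ∀ n, Continuous fun a => (c a).1 n := fun n =>
    (continuous_apply n).comp (continuous_subtype_val.comp hc)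
  choose y hy using fun n => gen_R' (hcn n)
  have hfin : {n | y n = inf n}.Finite := by
    let s : ℕ → Set (XX m) := fun n => {a | n ≠ m ∧ y n = inf n ∧ (c a).1 n ≠ inf n}
    have hs : ∀ n, #(s n) ≤ ka m := by
      intro n
      by_cases h : n ≠ m ∧ y n = inf n
      · refine (mk_le_mk_of_subset ?_).trans
          (tail_inf h.1.symm (hcn n) (by rw [hy, h.2, closure_inf]))
        exact fun a ha => ha.2.2
      · have : s n = ∅ := eq_empty_of_forall_notMem fun a ha => h ⟨ha.1, ha.2.1⟩
        rw [this]; simp
    obtain ⟨a, ha⟩ := small_ne_univ (small_iUnion (by simpa using ka_inf m) hs)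
    refine ((c a).2.insert m).subset fun n hn => ?_
    by_contra hcon
    simp only [mem_insert_iff, not_or] at hcon
    exact ha (mem_iUnion.2 ⟨n, hcon.1, hn, hcon.2⟩)
  refine ⟨⟨y, hfin⟩, subset_antisymm ?_ ?_⟩
  · refine closure_minimal ?_ isClosed_closure
    rintro _ ⟨a, rfl⟩
    rw [← specializes_iff_mem_closure]
    refine (subtype_specializes_iff _ _).2 (specializes_pi.2 fun n => ?_)
    rw [specializes_iff_mem_closure]
    show (c a).1 n ∈ closure {y n}
    rw [← hy]; exact subset_closure ⟨a, rfl⟩
  · refine closure_minimal (singleton_subset_iff.2 ?_) isClosed_closure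
    rw [mem_closure_iff]
    intro U hU hyU
    obtain ⟨V, hV, rfl⟩ := isOpen_induced_iff.1 hU
    obtain ⟨I, u, hu, hI⟩ := isOpen_pi_iff.1 hV y hyU
    have key : ∀ n ∈ I, ∃ a, (c a).1 n ∈ u n := by
      intro n hn
      have : y n ∈ closure (range fun a => (c a).1 n) := by
        rw [hy]; exact subset_closure (mem_singleton _)
      obtain ⟨_, h1, a, rfl⟩ := mem_closure_iff.1 this _ (hu n hn).1 (hu n hn).2
      exact ⟨a, h1⟩
    have hs : ∀ n, #({a | n ∈ I ∧ (c a).1 n ∉ u n} : Set (XX m)) ≤ ka m := by
      intro n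
      by_cases hn : n ∈ I
      · rcases (closedX _).1 (((hu n hn).1.preimage (hcn n)).isClosed_compl) with h | h
        · obtain ⟨a, ha⟩ := key n hn
          have : a ∈ ((fun a => (c a).1 n) ⁻¹' u n)ᶜ := h ▸ mem_univ a
          exact absurd ha this
        · exact (mk_le_mk_of_subset fun a ha => ha.2).trans h
      · simp [hn]
    obtain ⟨a, ha⟩ := small_ne_univ (small_iUnion (by simpa using ka_inf m) hs)
    refine ⟨c a, hI fun n hn => ?_, a, rfl⟩
    by_contra hcon
    exact ha (mem_iUnion.2 ⟨n, hn, hcon⟩)

lemma gen_unique {Y : Type} [TopologicalSpace Y] [T0Space Y] {y z : Y}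
    (h : closure ({y} : Set Y) = closure {z}) : y = z :=
  (inseparable_iff_closure_eq.2 h).eq

lemma refl_R (n : ℕ) (Y : Type) [TopologicalSpace Y] (hY : KK Y) (f : XX n → Y)
    (hf : Continuous f) : ∃! g : RR n → Y, Continuous g ∧ g ∘ eta n = f := by
  obtain ⟨y, hy⟩ := hY.2 n f hf
  have := hY.1
  refine ⟨fun r => Option.elim r y f, ⟨?_, rfl⟩, ?_⟩
  · rw [continuous_iff_isClosed]
    intro s hs
    rw [closedR]
    by_cases h : y ∈ s
    · left
      refine eq_univ_of_forall fun r => ?_
      rcases RR_cases r with rfl | ⟨x, rfl⟩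
      · exact h
      · have : f x ∈ closure {y} := hy ▸ subset_closure ⟨x, rfl⟩
        exact closure_minimal (singleton_subset_iff.2 h) hs this
    · right
      refine ⟨h, ?_⟩
      rcases (closedX _).1 (hs.preimage hf) with h1 | h1
      · exfalso
        apply h
        have h2 : y ∈ closure (range f) := hy ▸ subset_closure (mem_singleton _)
        refine closure_minimal (range_subset_iff.2 fun x => ?_) hs h2
        have : x ∈ f ⁻¹' s := h1 ▸ mem_univ x
        exact this
      · refine (mk_le_mk_of_subset (t := eta n '' (f ⁻¹' s)) ?_).trans (mk_image_le.trans h1)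
        intro r hr
        rcases RR_cases r with rfl | ⟨x, rfl⟩
        · exact absurd hr h
        · exact ⟨x, hr, rfl⟩
  · rintro g ⟨hg, rfl⟩
    funext r
    rcases RR_cases r with rfl | ⟨x, rfl⟩
    · show g (inf n) = y
      apply gen_unique
      rw [← hy, range_comp, ← closure_image_closure hg, eta_dense, ← closure_inf,
        closure_image_closure hg, image_singleton]
    · rfl

lemma no_ext (g : (∀ n, RR n) → YY) (hg : Continuous g)
    (h : ∀ x : ∀ n, XX n, (g (fun n => eta n (x n))).1 = fun n => eta n (x n)) : False := by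
  have key : ∀ n, (g inf).1 n = inf n := by
    intro n
    have h1 : ∀ x : ∀ n, XX n, (g inf).1 n ⤳ eta n (x n) := by
      intro x
      have h2 : inf ⤳ (fun n => eta n (x n)) := specializes_pi.2 fun n => by
        rw [specializes_iff_mem_closure, closure_inf]; trivial
      have h3 := (h2.map hg).map ((continuous_apply n).comp continuous_subtype_val)
      simpa [h] using h3
    rcases RR_cases ((g inf).1 n) with h4 | ⟨z, h4⟩
    · exact h4
    · exfalso
      obtain ⟨w, hw⟩ := small_ne_univ (n := n) (s := {z})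
        (by simpa using one_le_aleph0.trans (ka_inf n))
      classical
      have h5 := h1 (Function.update (fun _ => Classical.arbitrary _) n w)
      rw [h4, specializes_iff_mem_closure, (closed_eta z).closure_eq, Function.update_self] at h5
      exact hw (eta_inj n h5)
  have := (g inf).2
  simp only [key, ofPred_true] at this
  exact infinite_univ this

lemma adequate (X : Type) [TopologicalSpace X] :
    @KK {A : Set X // IsClosed A ∧ ∀ (Y : Type) [TopologicalSpace Y], KK Y →
            ∀ f : X → Y, Continuous f → ∃! y : Y, closure (f '' A) = closure {y}}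
        (TopologicalSpace.generateFrom
          {S | ∃ U : Set X, IsOpen U ∧ S = {A | (A.1 ∩ U).Nonempty}}) := by
  let P := {A : Set X // IsClosed A ∧ ∀ (Y : Type) [TopologicalSpace Y], KK Y →
            ∀ f : X → Y, Continuous f → ∃! y : Y, closure (f '' A) = closure {y}}
  let G : Set (Set P) := {S | ∃ U : Set X, IsOpen U ∧ S = {A | (A.1 ∩ U).Nonempty}}
  letI : TopologicalSpace P := TopologicalSpace.generateFrom G
  have hop : ∀ U : Set X, IsOpen U → IsOpen {A : P | (A.1 ∩ U).Nonempty} := fun U hU =>
    TopologicalSpace.isOpen_generateFrom_of_mem ⟨U, hU, rfl⟩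
  have hsub : ∀ A B : P, A ⤳ B → B.1 ⊆ A.1 := by
    intro A B h x hx
    by_contra hxA
    obtain ⟨z, hz⟩ := h.mem_open (hop _ A.2.1.isOpen_compl) ⟨x, hx, hxA⟩
    exact hz.2 hz.1
  refine ⟨⟨fun A B h => Subtype.ext (subset_antisymm (hsub B A h.specializes')
    (hsub A B h.specializes))⟩, fun m c hc => ?_⟩
  have hA : ∀ (Y : Type) [TopologicalSpace Y], KK Y → ∀ f : X → Y, Continuous f →
      ∃! y : Y, closure (f '' closure (⋃ a, (c a).1)) = closure {y} := by
    intro Y _ hY f hf
    have := hY.1
    choose y hy hy' using fun A : P => A.2.2 Y hY f hf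
    have hyc : Continuous y := by
      rw [continuous_def]
      intro V hV
      have : y ⁻¹' V = {A : P | (A.1 ∩ f ⁻¹' V).Nonempty} := by
        ext A
        have h1 : (closure (f '' A.1) ∩ V).Nonempty ↔ (closure {y A} ∩ V).Nonempty := by rw [hy]
        rw [closure_inter_open_nonempty_iff hV, closure_inter_open_nonempty_iff hV,
          singleton_inter_nonempty, ← image_inter_preimage, image_nonempty] at h1
        exact h1.symm
      rw [this]; exact hop _ (hV.preimage hf)
    obtain ⟨z, hz⟩ := hY.2 m (y ∘ c) (hyc.comp hc)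
    have h2 : closure (f '' closure (⋃ a, (c a).1)) = closure {z} := by
      rw [closure_image_closure hf, ← hz]
      apply subset_antisymm
      · refine closure_minimal ?_ isClosed_closure
        rintro _ ⟨x, hx, rfl⟩
        obtain ⟨a, ha⟩ := mem_iUnion.1 hx
        have : f x ∈ closure {y (c a)} := hy (c a) ▸ subset_closure ⟨x, ha, rfl⟩
        exact closure_mono (singleton_subset_iff.2 (mem_range_self (f := y ∘ c) a)) this
      · refine closure_minimal ?_ isClosed_closure
        rintro _ ⟨a, rfl⟩
        have : y (c a) ∈ closure (f '' (c a).1) := by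
          rw [hy]; exact subset_closure (mem_singleton _)
        exact closure_mono (image_mono (subset_iUnion (fun a => (c a).1) a)) this
    exact ⟨z, h2, fun w hw => gen_unique (hw.symm.trans h2)⟩
  refine ⟨⟨closure (⋃ a, (c a).1), isClosed_closure, hA⟩, subset_antisymm ?_ ?_⟩
  · refine closure_minimal ?_ isClosed_closure
    rintro _ ⟨a, rfl⟩
    rw [← specializes_iff_mem_closure, specializes_iff_pure, TopologicalSpace.nhds_generateFrom]
    refine le_iInf₂ fun S hS => ?_
    obtain ⟨h1, U, hU, rfl⟩ := hS
    rw [Filter.le_principal_iff, Filter.mem_pure]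
    exact h1.mono (inter_subset_inter_left _
      ((subset_iUnion (fun a => (c a).1) a).trans subset_closure))
  · refine closure_minimal (singleton_subset_iff.2 ?_) isClosed_closure
    have key : ∀ S : Set P, TopologicalSpace.GenerateOpen G S →
        (⟨closure (⋃ a, (c a).1), isClosed_closure, hA⟩ : P) ∈ S → (c ⁻¹' S).Nonempty := by
      intro S hS
      induction hS with
      | basic S hS =>
        obtain ⟨U, hU, rfl⟩ := hS
        intro h
        have h' : (closure (⋃ a, (c a).1) ∩ U).Nonempty := h
        rw [closure_inter_open_nonempty_iff hU] at h'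
        obtain ⟨x, hx, hxU⟩ := h'
        obtain ⟨a, ha⟩ := mem_iUnion.1 hx
        exact ⟨a, x, ha, hxU⟩
      | univ => intro _; exact univ_nonempty
      | inter s t hs ht ihs iht =>
        intro h
        exact nonempty_preirreducible_inter (IsOpen.preimage hc hs) (IsOpen.preimage hc ht)
          (ihs h.1) (iht h.2)
      | sUnion T hT ih =>
        rintro ⟨s, hs, h⟩
        exact (ih s hs h).mono (preimage_mono (subset_sUnion_of_mem hs))
    rw [mem_closure_iff]
    intro S hS h
    obtain ⟨a, ha⟩ := key S hS h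
    exact ⟨c a, ha, a, rfl⟩

lemma KK_sober (X : Type) [TopologicalSpace X] (h0 : T0Space X) (h : QuasiSober X) : KK X := by
  refine ⟨h0, fun m c hc => ?_⟩
  have hirr : IsIrreducible (range c) := by
    rw [← image_univ]
    exact (IrreducibleSpace.isIrreducible_univ _).image c hc.continuousOn
  obtain ⟨y, hy⟩ := QuasiSober.sober hirr.closure isClosed_closure
  exact ⟨y, hy.symm⟩

lemma KK_homeo (X Y : Type) [TopologicalSpace X] [TopologicalSpace Y] (e : X ≃ₜ Y) (h : KK X) :
    KK Y := by
  have := h.1
  refine ⟨e.symm.isEmbedding.t0Space, fun m c hc => ?_⟩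
  obtain ⟨y, hy⟩ := h.2 m (e.symm ∘ c) (e.symm.continuous.comp hc)
  refine ⟨e y, ?_⟩
  rw [← image_singleton, ← e.image_closure, ← hy, e.image_closure, ← range_comp]
  congr 2
  ext x; simp

end Pool.Agent.H.MP_958dc4_gt
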